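import Mathlib

/-!
A semi-Eberlein compact `K ⊆ [-1,1]^I` with `Σ(I) ∩ K` dense in `K`, such that no dense subset of
`Σ(I) ∩ K` has the decomposition property.
-/

namespace Pool.Agent.Results.MP_abc717_gt.NoDecomposition

open Set Topology Filter

universe u

/-- The points of `ℝ^I` with countable support. -/
def Sigma' (I : Type u) : Set (I → ℝ) := {x | {i | x i ≠ 0}.Countable}

/-- `c₀(Γ)`: the points `x` of `ℝ^Γ` such that `{γ | |x γ| > ε}` is finite for every `ε > 0`. -/
def cZero (Γ : Type u) : Set (Γ → ℝ) := {x | ∀ ε : ℝ, 0 < ε → {γ | ε < |x γ|}.Finite}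

/-- A compact Hausdorff space `K` is semi-Eberlein if for some `Γ` there is a homeomorphic
embedding `h : K → [0,1]^Γ` such that `h(K) ∩ c₀(Γ)` is dense in `h(K)`. -/
def SemiEberlein (K : Type u) [TopologicalSpace K] : Prop :=
  CompactSpace K ∧ T2Space K ∧ ∃ (Γ : Type u) (h : K → (Γ → ℝ)), IsEmbedding h ∧
    (∀ x γ, h x γ ∈ Set.Icc (0 : ℝ) 1) ∧ Set.range h ⊆ closure (Set.range h ∩ cZero Γ)

lemma mem_closure_of_finset {ι : Type*} {S : Set (ι → ℝ)} {x : ι → ℝ}
    (h : ∀ F : Finset ι, ∃ y ∈ S, ∀ i ∈ F, y i = x i) : x ∈ closure S := by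
  rw [mem_closure_iff_nhds]
  intro t ht
  rw [nhds_pi, Filter.mem_pi] at ht
  obtain ⟨I, hI, s, hs, hst⟩ := ht
  obtain ⟨y, hyS, hy⟩ := h hI.toFinset
  refine ⟨y, hst fun i hi => ?_, hyS⟩
  rw [hy i (hI.mem_toFinset.2 hi)]
  exact mem_of_mem_nhds (hs i)

/-- The index set of the second kind of coordinates: infinite countable sets of reals. -/
def Theta : Type := {A : Set ℝ // A.Countable ∧ A.Infinite}

/-- The compact set of the counterexample. -/
def K : Set (ℝ ⊕ Theta → ℝ) :=
  {x | (∀ i, x i ∈ ({0, 1} : Set ℝ)) ∧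
    (∀ A B : Theta, A ≠ B → x (Sum.inr A) * x (Sum.inr B) = 0) ∧
    ∀ (A : Theta) (w : ℝ), w ∈ A.1 → x (Sum.inr A) * (1 - x (Sum.inl w)) = 0}

lemma isCompact_K : IsCompact K := by
  have h1 : IsCompact (Set.pi Set.univ fun _ : ℝ ⊕ Theta => ({0, 1} : Set ℝ)) :=
    isCompact_univ_pi fun _ => (Set.toFinite _).isCompact
  have h2 : IsClosed {x : ℝ ⊕ Theta → ℝ |
      ∀ A B : Theta, A ≠ B → x (Sum.inr A) * x (Sum.inr B) = 0} := by
    have : {x : ℝ ⊕ Theta → ℝ | ∀ A B : Theta, A ≠ B → x (Sum.inr A) * x (Sum.inr B) = 0} =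
        ⋂ A : Theta, ⋂ B : Theta, ⋂ _ : A ≠ B, {x | x (Sum.inr A) * x (Sum.inr B) = 0} := by
      ext x; simp
    rw [this]
    refine isClosed_iInter fun A => isClosed_iInter fun B => isClosed_iInter fun _ => ?_
    exact isClosed_eq (by fun_prop) continuous_const
  have h3 : IsClosed {x : ℝ ⊕ Theta → ℝ |
      ∀ (A : Theta) (w : ℝ), w ∈ A.1 → x (Sum.inr A) * (1 - x (Sum.inl w)) = 0} := by
    have : {x : ℝ ⊕ Theta → ℝ |
        ∀ (A : Theta) (w : ℝ), w ∈ A.1 → x (Sum.inr A) * (1 - x (Sum.inl w)) = 0} =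
        ⋂ A : Theta, ⋂ w : ℝ, ⋂ _ : w ∈ A.1, {x | x (Sum.inr A) * (1 - x (Sum.inl w)) = 0} := by
      ext x; simp
    rw [this]
    refine isClosed_iInter fun A => isClosed_iInter fun w => isClosed_iInter fun _ => ?_
    exact isClosed_eq (by fun_prop) continuous_const
  have : K = (Set.pi Set.univ fun _ : ℝ ⊕ Theta => ({0, 1} : Set ℝ)) ∩
      ({x : ℝ ⊕ Theta → ℝ | ∀ A B : Theta, A ≠ B → x (Sum.inr A) * x (Sum.inr B) = 0} ∩
      {x : ℝ ⊕ Theta → ℝ |
      ∀ (A : Theta) (w : ℝ), w ∈ A.1 → x (Sum.inr A) * (1 - x (Sum.inl w)) = 0}) := by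
    ext f
    simp [K]
  rw [this]
  exact h1.inter_right (h2.inter h3)

/-- Changing the first kind of coordinates off the forced set keeps a point in `K`. -/
lemma mem_K_of {x y : ℝ ⊕ Theta → ℝ} (hx : x ∈ K) (hr : ∀ A, y (Sum.inr A) = x (Sum.inr A))
    (hl : ∀ w, y (Sum.inl w) ∈ ({0, 1} : Set ℝ))
    (h : ∀ (A : Theta) (w : ℝ), w ∈ A.1 → x (Sum.inr A) = 1 → y (Sum.inl w) = 1) : y ∈ K := by
  refine ⟨?_, ?_, ?_⟩
  · rintro (w | A)
    · exact hl w
    · rw [hr A]; exact hx.1 _
  · intro A B hAB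
    rw [hr, hr]
    exact hx.2.1 A B hAB
  · intro A w hw
    rw [hr]
    rcases hx.1 (Sum.inr A) with h0 | h1
    · rw [h0, zero_mul]
    · rw [h A w hw h1]; simp

/-- At most one of the coordinates of the second kind is nonzero. -/
lemma subsingleton_inr {x : ℝ ⊕ Theta → ℝ} (hx : x ∈ K) :
    {A : Theta | x (Sum.inr A) ≠ 0}.Subsingleton := by
  intro A hA B hB
  by_contra hAB
  rcases mul_eq_zero.1 (hx.2.1 A B hAB) with h | h
  · exact hA h
  · exact hB h

lemma one_of_mem {x : ℝ ⊕ Theta → ℝ} (hx : x ∈ K) {A : Theta} (hA : x (Sum.inr A) = 1) {w : ℝ}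
    (hw : w ∈ A.1) : x (Sum.inl w) = 1 := by
  have := hx.2.2 A w hw
  rw [hA, one_mul] at this
  linarith

lemma dense_sigma : K ⊆ closure (Sigma' (ℝ ⊕ Theta) ∩ K) := by
  classical
  intro x hx
  refine mem_closure_of_finset fun F => ?_
  let y : ℝ ⊕ Theta → ℝ := fun i => match i with
    | Sum.inl w => if (Sum.inl w ∈ F ∨ ∃ A : Theta, w ∈ A.1 ∧ x (Sum.inr A) = 1)
        then x (Sum.inl w) else 0
    | Sum.inr A => x (Sum.inr A)
  refine ⟨y, ⟨?_, ?_⟩, ?_⟩
  · show {i | y i ≠ 0}.Countable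
    have h1 : {A : Theta | x (Sum.inr A) ≠ 0}.Countable :=
      (subsingleton_inr hx).countable
    have h2 : {w : ℝ | Sum.inl w ∈ F}.Countable := by
      have : {w : ℝ | Sum.inl w ∈ F} = Sum.inl ⁻¹' (F : Set (ℝ ⊕ Theta)) := rfl
      rw [this]
      exact (F.countable_toSet).preimage Sum.inl_injective
    have h3 : {w : ℝ | ∃ A : Theta, w ∈ A.1 ∧ x (Sum.inr A) = 1}.Countable := by
      have : {w : ℝ | ∃ A : Theta, w ∈ A.1 ∧ x (Sum.inr A) = 1} ⊆
          ⋃ A ∈ {A : Theta | x (Sum.inr A) ≠ 0}, A.1 := by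
        rintro w ⟨A, hw, hA⟩
        simp only [mem_iUnion]
        exact ⟨A, by show x (Sum.inr A) ≠ 0; rw [hA]; exact one_ne_zero, hw⟩
      exact (h1.biUnion fun A _ => A.2.1).mono this
    refine ((h2.union h3).image Sum.inl |>.union (h1.image Sum.inr)).mono ?_
    rintro (w | A) hi
    · left
      refine ⟨w, ?_, rfl⟩
      by_contra hcon
      apply hi
      have : ¬ (Sum.inl w ∈ F ∨ ∃ A : Theta, w ∈ A.1 ∧ x (Sum.inr A) = 1) := hcon
      simp only [y]
      rw [if_neg this]
    · right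
      exact ⟨A, hi, rfl⟩
  · refine mem_K_of hx (fun A => rfl) (fun w => ?_) (fun A w hw hA => ?_)
    · simp only [y]
      split_ifs
      · exact hx.1 _
      · left; rfl
    · simp only [y]
      rw [if_pos (Or.inr ⟨A, hw, hA⟩)]
      exact one_of_mem hx hA hw
  · rintro (w | A) hi
    · simp only [y]
      rw [if_pos (Or.inl hi)]
    · rfl

/-- The flip of the first kind of coordinates. -/
noncomputable def flip (x : K) : ℝ ⊕ Theta → ℝ := fun i => match i with
  | Sum.inl w => 1 - x.1 (Sum.inl w)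
  | Sum.inr A => x.1 (Sum.inr A)

lemma continuous_flip : Continuous flip := by
  refine continuous_pi ?_
  rintro (w | A)
  · exact continuous_const.sub ((continuous_apply _).comp continuous_subtype_val)
  · exact (continuous_apply _).comp continuous_subtype_val

lemma flip_injective : Function.Injective flip := by
  intro x y h
  apply Subtype.ext
  funext i
  have := congrFun h i
  rcases i with w | A
  · simp only [flip] at this
    linarith
  · exact this

lemma semiEberlein_K : SemiEberlein K := by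
  classical
  have hc : CompactSpace K := isCompact_iff_compactSpace.1 isCompact_K
  refine ⟨hc, inferInstance, ℝ ⊕ Theta, flip,
    (continuous_flip.isClosedEmbedding flip_injective).isEmbedding, ?_, ?_⟩
  · rintro x (w | A)
    · rcases x.2.1 (Sum.inl w) with h | h
      · simp [flip, h]
      · have h' : x.1 (Sum.inl w) = 1 := h
        simp [flip, h']
    · rcases x.2.1 (Sum.inr A) with h | h
      · simp [flip, h]
      · have h' : x.1 (Sum.inr A) = 1 := h
        simp [flip, h']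
  · rintro _ ⟨x, rfl⟩
    refine mem_closure_of_finset fun F => ?_
    let y : ℝ ⊕ Theta → ℝ := fun i => match i with
      | Sum.inl w => if Sum.inl w ∈ F then x.1 (Sum.inl w) else 1
      | Sum.inr A => x.1 (Sum.inr A)
    have hy : y ∈ K := by
      refine mem_K_of x.2 (fun A => rfl) (fun w => ?_) (fun A w hw hA => ?_)
      · simp only [y]
        split_ifs
        · exact x.2.1 _
        · right; rfl
      · simp only [y]
        split_ifs
        · exact one_of_mem x.2 hA hw
        · rfl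
    refine ⟨flip ⟨y, hy⟩, ⟨⟨⟨y, hy⟩, rfl⟩, ?_⟩, ?_⟩
    · intro ε hε
      have h1 : {A : Theta | x.1 (Sum.inr A) ≠ 0}.Finite := (subsingleton_inr x.2).finite
      refine ((F.finite_toSet).union (h1.image Sum.inr)).subset ?_
      rintro (w | A) hi
      · left
        by_contra hcon
        have h2 : ¬ (Sum.inl w ∈ F) := hcon
        have h3 : flip ⟨y, hy⟩ (Sum.inl w) = 0 := by
          simp [flip, y, h2]
        have h4 : ε < |flip ⟨y, hy⟩ (Sum.inl w)| := hi
        rw [h3, abs_zero] at h4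
        exact absurd h4 (not_lt.2 hε.le)
      · right
        refine ⟨A, ?_, rfl⟩
        intro h0
        have h3 : flip ⟨y, hy⟩ (Sum.inr A) = 0 := by
          simp [flip, y, h0]
        have h4 : ε < |flip ⟨y, hy⟩ (Sum.inr A)| := hi
        rw [h3, abs_zero] at h4
        exact absurd h4 (not_lt.2 hε.le)
    · rintro (w | A) hi
      · simp [flip, y, hi]
      · simp [flip, y]

/-- **There are a set `I` and a compact `K ⊆ [-1,1]^I` which is semi-Eberlein and has
`Σ(I) ∩ K` dense, such that for every dense `D ⊆ Σ(I) ∩ K` there is `ε > 0` such that for every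
countable decomposition `I = ⋃ₙ Jₙ` there are `n` and `x ∈ D` with `{i ∈ Jₙ : |x i| > ε}`
infinite.** -/
theorem result : ∃ (I : Type) (K : Set (I → ℝ)), IsCompact K ∧
    (∀ x ∈ K, ∀ i, x i ∈ Set.Icc (-1 : ℝ) 1) ∧ K ⊆ closure (Sigma' I ∩ K) ∧ SemiEberlein K ∧
    ∀ D ⊆ Sigma' I ∩ K, K ⊆ closure D → ∃ ε : ℝ, 0 < ε ∧
      ∀ J : ℕ → Set I, (⋃ n, J n) = Set.univ → ∃ n, ∃ x ∈ D, {i ∈ J n | ε < |x i|}.Infinite := by
  classical
  refine ⟨ℝ ⊕ Theta, K, isCompact_K, ?_, dense_sigma, semiEberlein_K, ?_⟩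
  · intro x hx i
    rcases hx.1 i with h | h
    · rw [h]; norm_num
    · rw [h]; norm_num
  · intro D hD hKD
    refine ⟨1 / 2, by norm_num, fun J hJ => ?_⟩
    -- one of the pieces contains uncountably many coordinates of the first kind
    have h1 : ∃ n, ¬ (Sum.inl ⁻¹' (J n) : Set ℝ).Countable := by
      by_contra hcon
      push Not at hcon
      have h2 : (⋃ n, (Sum.inl ⁻¹' (J n) : Set ℝ)).Countable := Set.countable_iUnion hcon
      have h3 : (⋃ n, (Sum.inl ⁻¹' (J n) : Set ℝ)) = Set.univ := by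
        rw [← Set.preimage_iUnion, hJ, Set.preimage_univ]
      rw [h3] at h2
      exact Cardinal.not_countable_real h2
    obtain ⟨n, hn⟩ := h1
    have h2 : (Sum.inl ⁻¹' (J n) : Set ℝ).Infinite := fun hfin => hn hfin.countable
    obtain ⟨A, hAJ, hAc, hAinf⟩ := Set.Infinite.exists_subset_countable_infinite h2
    let θ : Theta := ⟨A, hAc, hAinf⟩
    -- the point of `K` over `θ`
    let z : ℝ ⊕ Theta → ℝ := fun i => match i with
      | Sum.inl _ => 1
      | Sum.inr B => if B = θ then 1 else 0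
    have hz : z ∈ K := by
      refine ⟨?_, ?_, ?_⟩
      · rintro (w | B)
        · right; rfl
        · simp only [z]
          split_ifs
          · right; rfl
          · left; rfl
      · intro B C hBC
        simp only [z]
        by_cases hB : B = θ
        · have hC : C ≠ θ := fun h => hBC (hB.trans h.symm)
          rw [if_neg hC, mul_zero]
        · rw [if_neg hB, zero_mul]
      · intro B w _
        simp [z]
    have hopen : IsOpen {x : ℝ ⊕ Theta → ℝ | (1 / 2 : ℝ) < x (Sum.inr θ)} :=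
      isOpen_lt continuous_const (continuous_apply _)
    have hzo : z ∈ {x : ℝ ⊕ Theta → ℝ | (1 / 2 : ℝ) < x (Sum.inr θ)} := by
      show (1 / 2 : ℝ) < z (Sum.inr θ)
      simp only [z]
      norm_num
    obtain ⟨x, hxo, hxD⟩ := mem_closure_iff.1 (hKD hz) _ hopen hzo
    have hxK : x ∈ K := (hD hxD).2
    have hx1 : x (Sum.inr θ) = 1 := by
      rcases hxK.1 (Sum.inr θ) with h | h
      · have h3 : (1 / 2 : ℝ) < x (Sum.inr θ) := hxo
        rw [h] at h3
        norm_num at h3
      · exact h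
    refine ⟨n, x, hxD, ?_⟩
    refine (hAinf.image Sum.inl_injective.injOn).mono ?_
    rintro _ ⟨w, hw, rfl⟩
    refine ⟨hAJ hw, ?_⟩
    rw [one_of_mem hxK hx1 (A := θ) hw]
    norm_num

end Pool.Agent.Results.MP_abc717_gt.NoDecomposition
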